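import Pool.Agent.Q255.EP.Stm

set_option autoImplicit false

namespace Pool.Agent.Q13.EP

open Filter Topology MeasureTheory Pool.Agent.Q255.IC Pool.Agent.Q255.IR Pool.Agent.Q255.EP
open scoped ENNReal

/-- the values of `cm` have absolute value one -/
theorem abs_cm (ω : ℕ → Bool) (n : ℕ) : |cm ω n| = 1 := by
  unfold cm Finsupp.prod
  rw [Finset.abs_prod]
  refine Finset.prod_eq_one fun p _ => ?_
  rw [abs_pow, abs_sg, one_pow]

theorem abs_cm_le (ω : ℕ → Bool) (n : ℕ) : |cm ω n| ≤ 1 := (abs_cm ω n).le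

theorem cm_sq (ω : ℕ → Bool) (n : ℕ) : cm ω n ^ 2 = 1 := by
  rw [← sq_abs, abs_cm, one_pow]

theorem cm_one (ω : ℕ → Bool) : cm ω 1 = 1 := by
  unfold cm
  simp

theorem cm_mul (ω : ℕ → Bool) {a b : ℕ} (ha : a ≠ 0) (hb : b ≠ 0) :
    cm ω (a * b) = cm ω a * cm ω b := by
  unfold cm
  rw [Nat.factorization_mul ha hb]
  exact Finsupp.prod_add_index' (fun p => pow_zero _) (fun p k l => pow_add _ _ _)

theorem count_pr (k : ℕ) : Nat.count Nat.Prime (pr k) = k :=
  Nat.count_nth_of_infinite Nat.infinite_setOf_prime k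

theorem pr_count {p : ℕ} (hp : p.Prime) : pr (Nat.count Nat.Prime p) = p := Nat.nth_count hp

theorem pr_strictMono : StrictMono pr := Nat.nth_strictMono Nat.infinite_setOf_prime

theorem cm_prime (ω : ℕ → Bool) {p : ℕ} (hp : p.Prime) : cm ω p = sg ω (Nat.count Nat.Prime p) := by
  unfold cm
  rw [hp.factorization, Finsupp.prod_single_index (by simp)]
  simp

theorem cm_pr (ω : ℕ → Bool) (k : ℕ) : cm ω (pr k) = sg ω k := by
  rw [cm_prime ω (pr_prime k), count_pr]

theorem cm_pow_two (ω : ℕ → Bool) (r : ℕ) : cm ω (r ^ 2) = 1 := by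
  rcases eq_or_ne r 0 with rfl | hr
  · unfold cm
    simp
  · rw [pow_two, cm_mul ω hr hr, ← pow_two, cm_sq]

theorem cm_sq_mul (ω : ℕ → Bool) {r s : ℕ} (hr : r ≠ 0) (hs : s ≠ 0) :
    cm ω (r ^ 2 * s) = cm ω s := by
  rw [cm_mul ω (pow_ne_zero 2 hr) hs, cm_pow_two, one_mul]

/-- `cm` depends only on the signs at the primes of `m` -/
theorem cm_congr {ω ω' : ℕ → Bool} {k m : ℕ} (h : ∀ j < k, ω j = ω' j)
    (hm : ∀ p ∈ m.primeFactors, p < pr k) : cm ω m = cm ω' m := by
  unfold cm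
  refine Finsupp.prod_congr fun p hp => ?_
  have h1 : p ∈ m.primeFactors := by simpa using hp
  have h2 : Nat.count Nat.Prime p < k := by
    have h3 := hm p h1
    rw [← pr_count (Nat.prime_of_mem_primeFactors h1)] at h3
    exact pr_strictMono.lt_iff_lt.1 h3
  have h4 : sg ω (Nat.count Nat.Prime p) = sg ω' (Nat.count Nat.Prime p) := by
    unfold sg
    rw [h _ h2]
  rw [h4]

theorem mem_sm {k X m : ℕ} : m ∈ sm k X ↔
    (1 ≤ m ∧ m ≤ X) ∧ Squarefree m ∧ ∀ p ∈ m.primeFactors, p < pr k := by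
  unfold sm
  rw [Finset.mem_filter, Finset.mem_Icc]

theorem sm_zero {X : ℕ} (hX : 1 ≤ X) : sm 0 X = {1} := by
  ext m
  rw [mem_sm, Finset.mem_singleton]
  constructor
  · rintro ⟨⟨h1, h2⟩, h3, h4⟩
    by_contra hm
    obtain ⟨p, hp, hpm⟩ := Nat.exists_prime_and_dvd hm
    have h5 := h4 p (Nat.mem_primeFactors.2 ⟨hp, hpm, by omega⟩)
    have h6 : pr 0 = 2 := by
      unfold pr
      exact Nat.nth_prime_zero_eq_two
    rw [h6] at h5
    have := hp.two_le
    omega
  · rintro rfl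
    refine ⟨⟨le_rfl, hX⟩, squarefree_one, ?_⟩
    simp

/-- the recursion for sums over `sm` -/
theorem sum_sm_succ (k X : ℕ) (g : ℕ → ℝ) (hg : ∀ m, X < m → g m = 0) :
    ∑ m ∈ sm (k + 1) X, g m = ∑ m ∈ sm k X, g m + ∑ m ∈ sm k X, g (pr k * m) := by
  have hp := pr_prime k
  have h1 : ∑ m ∈ sm k X, g (pr k * m) =
      ∑ m ∈ (sm k X).filter (fun m => pr k * m ≤ X), g (pr k * m) := by
    rw [Finset.sum_filter]
    refine Finset.sum_congr rfl fun m _ => ?_
    split_ifs with h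
    · rfl
    · exact hg _ (by omega)
  have h2 : ∑ m ∈ sm (k + 1) X, g m =
      ∑ m ∈ (sm (k + 1) X).filter (fun m => ¬ pr k ∣ m), g m +
        ∑ m ∈ (sm (k + 1) X).filter (fun m => pr k ∣ m), g m := by
    exact ((add_comm _ _).trans
      (Finset.sum_filter_add_sum_filter_not (sm (k + 1) X) (fun m => pr k ∣ m) g)).symm
  rw [h1, h2]
  congr 1
  · refine Finset.sum_congr ?_ fun _ _ => rfl
    ext m
    rw [Finset.mem_filter, mem_sm, mem_sm]
    constructor
    · rintro ⟨⟨h3, h4, h5⟩, h6⟩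
      refine ⟨h3, h4, fun p hpm => ?_⟩
      have h7 := h5 p hpm
      have hpp := Nat.prime_of_mem_primeFactors hpm
      rw [← pr_count hpp] at h7 ⊢
      have h8 := pr_strictMono.lt_iff_lt.1 h7
      refine pr_strictMono.lt_iff_lt.2 ?_
      rcases Nat.lt_succ_iff_lt_or_eq.1 h8 with h9 | h9
      · exact h9
      · exfalso
        apply h6
        rw [← h9, pr_count hpp]
        exact Nat.dvd_of_mem_primeFactors hpm
    · rintro ⟨h3, h4, h5⟩
      refine ⟨⟨h3, h4, fun p hpm => (h5 p hpm).trans (pr_strictMono (Nat.lt_succ_self k))⟩,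
        fun h6 => ?_⟩
      exact lt_irrefl _ (h5 (pr k) (Nat.mem_primeFactors.2 ⟨hp, h6, by omega⟩))
  · symm
    refine Finset.sum_bij (fun m _ => pr k * m) ?_ ?_ ?_ ?_
    · intro m hm
      rw [Finset.mem_filter, mem_sm] at hm
      obtain ⟨⟨⟨h3, h3'⟩, h4, h5⟩, h6⟩ := hm
      rw [Finset.mem_filter, mem_sm]
      have hcop : Nat.Coprime (pr k) m := by
        rw [Nat.Prime.coprime_iff_not_dvd hp]
        intro h7
        exact lt_irrefl _ (h5 (pr k) (Nat.mem_primeFactors.2 ⟨hp, h7, by omega⟩))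
      refine ⟨⟨⟨Nat.mul_pos hp.pos h3, h6⟩, ?_, ?_⟩, dvd_mul_right _ _⟩
      · exact (Nat.squarefree_mul hcop).2 ⟨hp.prime.squarefree, h4⟩
      · intro p hpm
        rw [Nat.primeFactors_mul hp.ne_zero (by omega), Finset.mem_union, hp.primeFactors,
          Finset.mem_singleton] at hpm
        rcases hpm with rfl | hpm
        · exact pr_strictMono (Nat.lt_succ_self k)
        · exact (h5 p hpm).trans (pr_strictMono (Nat.lt_succ_self k))
    · intro a _ b _ hab
      exact Nat.eq_of_mul_eq_mul_left hp.pos hab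
    · intro m hm
      rw [Finset.mem_filter, mem_sm] at hm
      obtain ⟨⟨⟨h3, h3'⟩, h4, h5⟩, ⟨c, rfl⟩⟩ := hm
      have hc0 : c ≠ 0 := by
        rintro rfl
        simp at h3
      have hcop : Nat.Coprime (pr k) c := (Nat.squarefree_mul_iff.1 h4).1
      refine ⟨c, ?_, rfl⟩
      rw [Finset.mem_filter, mem_sm]
      refine ⟨⟨⟨Nat.pos_of_ne_zero hc0, ?_⟩, (Nat.squarefree_mul_iff.1 h4).2.2, ?_⟩, h3'⟩
      · exact (Nat.le_mul_of_pos_left c hp.pos).trans h3'
      · intro p hpc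
        have hpp := Nat.prime_of_mem_primeFactors hpc
        have h7 := h5 p (by
          rw [Nat.primeFactors_mul hp.ne_zero hc0]
          exact Finset.mem_union_right _ hpc)
        rw [← pr_count hpp] at h7 ⊢
        have h8 := pr_strictMono.lt_iff_lt.1 h7
        refine pr_strictMono.lt_iff_lt.2 ?_
        rcases Nat.lt_succ_iff_lt_or_eq.1 h8 with h9 | h9
        · exact h9
        · exfalso
          have h10 : pr k = p := by rw [← h9, pr_count hpp]
          rw [Nat.Prime.coprime_iff_not_dvd hp] at hcop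
          apply hcop
          rw [h10]
          exact Nat.dvd_of_mem_primeFactors hpc
    · intro m _
      rfl

theorem t_REC : S_REC := by
  intro ω κ X w hX hw
  refine ⟨?_, ?_, ?_, ?_, ?_⟩
  · unfold Sq
    rw [sm_zero hX, Finset.sum_singleton, cm_one, mul_one]
  · unfold Nq
    rw [sm_zero hX, Finset.sum_singleton]
    simp
  · intro k
    unfold Sq
    rw [sum_sm_succ k X (fun m => w m * cm ω m) (fun m hm => by simp only [hw m hm, zero_mul])]
    congr 1
    rw [Finset.mul_sum]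
    refine Finset.sum_congr rfl fun m hm => ?_
    rw [mem_sm] at hm
    rw [cm_mul ω (pr_prime k).ne_zero (by omega), cm_pr]
    unfold dil
    ring
  · intro k
    unfold Nq
    rw [sum_sm_succ k X (fun m => w m ^ 2 * ∏ p ∈ m.primeFactors, κ (Nat.count Nat.Prime p))
      (fun m hm => by simp only [hw m hm]; ring)]
    congr 1
    rw [Finset.mul_sum]
    refine Finset.sum_congr rfl fun m hm => ?_
    rw [mem_sm] at hm
    obtain ⟨⟨h3, h3'⟩, h4, h5⟩ := hm
    have hnot : pr k ∉ m.primeFactors := fun h => lt_irrefl _ (h5 _ h)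
    rw [Nat.primeFactors_mul (pr_prime k).ne_zero (by omega), (pr_prime k).primeFactors,
      ← Finset.insert_eq, Finset.prod_insert hnot, count_pr]
    unfold dil
    ring
  · intro k ω' h
    unfold Sq
    refine Finset.sum_congr rfl fun m hm => ?_
    rw [mem_sm] at hm
    rw [cm_congr h hm.2.2]

/-- the squarefree part determines the square part -/
theorem sq_part_inj {r s r' s' : ℕ} (hr : r ≠ 0) (hr' : r' ≠ 0) (hs : Squarefree s)
    (hs' : Squarefree s') (h : r ^ 2 * s = r' ^ 2 * s') : r = r' ∧ s = s' := by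
  have key : ∀ {r s : ℕ}, r ≠ 0 → Squarefree s → ∀ p,
      s.factorization p = (r ^ 2 * s).factorization p % 2 := by
    intro r s hr hs p
    rw [Nat.factorization_mul (pow_ne_zero 2 hr) hs.ne_zero, Nat.factorization_pow]
    simp only [Finsupp.coe_add, Finsupp.coe_smul, Pi.add_apply, Pi.smul_apply, smul_eq_mul]
    have h1 := hs.natFactorization_le_one p
    omega
  have h1 : s = s' := by
    refine Nat.eq_of_factorization_eq hs.ne_zero hs'.ne_zero fun p => ?_
    rw [key hr hs p, key hr' hs' p, h]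
  refine ⟨?_, h1⟩
  subst h1
  have h2 := Nat.eq_of_mul_eq_mul_right (Nat.pos_of_ne_zero hs.ne_zero) h
  exact Nat.pow_left_injective (by norm_num : (2 : ℕ) ≠ 0) h2

theorem lt_pr_primeCounting {p X : ℕ} (h : p ≤ X) : p < pr (Nat.primeCounting X) := by
  have h1 : X + 1 ≤ pr (Nat.primeCounting X) := by
    unfold pr Nat.primeCounting Nat.primeCounting'
    exact Nat.le_nth_count Nat.infinite_setOf_prime (X + 1)
  omega

theorem t_FULL : S_FULL := by
  intro ω X w hw
  have h1 : ∀ r ∈ Finset.Icc 1 X, Sq ω (Nat.primeCounting X) X (fun s => w (r ^ 2 * s)) =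
      ∑ s ∈ (sm (Nat.primeCounting X) X).filter (fun s => r ^ 2 * s ≤ X),
        w (r ^ 2 * s) * cm ω (r ^ 2 * s) := by
    intro r hr
    rw [Finset.mem_Icc] at hr
    unfold Sq
    rw [Finset.sum_filter]
    refine Finset.sum_congr rfl fun s hs => ?_
    rw [mem_sm] at hs
    split_ifs with h
    · rw [cm_sq_mul ω (by omega) (by omega)]
    · have h5 : w (r ^ 2 * s) = 0 := hw _ (by omega)
      simp only [h5, zero_mul]
  rw [Finset.sum_congr rfl h1, Finset.sum_sigma']
  symm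
  refine Finset.sum_bij (fun a _ => a.1 ^ 2 * a.2) ?_ ?_ ?_ ?_
  · rintro ⟨r, s⟩ h
    simp only [Finset.mem_sigma, Finset.mem_filter, mem_sm, Finset.mem_Icc] at h ⊢
    exact ⟨Nat.mul_pos (pow_pos h.1.1 2) h.2.1.1.1, h.2.2⟩
  · rintro ⟨r, s⟩ h ⟨r', s'⟩ h' heq
    simp only [Finset.mem_sigma, Finset.mem_filter, mem_sm, Finset.mem_Icc] at h h' heq
    obtain ⟨h3, h4⟩ := sq_part_inj (r := r) (r' := r') (s := s) (s' := s') (by omega) (by omega)
      h.2.1.2.1 h'.2.1.2.1 heq
    subst h3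
    subst h4
    rfl
  · intro n hn
    rw [Finset.mem_Icc] at hn
    obtain ⟨s, r, hs, hr, heq, hsq⟩ := Nat.sq_mul_squarefree_of_pos hn.1
    refine ⟨⟨r, s⟩, ?_, heq⟩
    simp only [Finset.mem_sigma, Finset.mem_filter, mem_sm, Finset.mem_Icc]
    have hsX : s ≤ X := by
      have h2 : s ≤ r ^ 2 * s := Nat.le_mul_of_pos_left s (pow_pos hr 2)
      omega
    have hrX : r ≤ X := by
      have h2 : r ≤ r ^ 2 := Nat.le_self_pow (by norm_num) r
      have h3 : r ^ 2 ≤ r ^ 2 * s := Nat.le_mul_of_pos_right _ hs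
      omega
    refine ⟨⟨hr, hrX⟩, ⟨⟨hs, hsX⟩, hsq, fun p hp => ?_⟩, by omega⟩
    refine lt_pr_primeCounting ?_
    exact (Nat.le_of_dvd hs (Nat.dvd_of_mem_primeFactors hp)).trans hsX
  · rintro ⟨r, s⟩ _
    rfl

end Pool.Agent.Q13.EP
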