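import Pool.Agent.Q255.EP.Stm
import Pool.Agent.Q13.EP.REC
import Pool.Agent.Q146.FZ.POLE
import Pool.Agent.Q208.FZ.EUL
import Pool.Agent.Q208.FZ.LGP
import Pool.Agent.Q247.RZ.AN

set_option autoImplicit false

namespace Pool.Agent.Q13.EP

open Filter Topology MeasureTheory Pool.Agent.Q255.IC Pool.Agent.Q255.IR Pool.Agent.Q255.EP
open scoped ENNReal

/-- sums over primes are sums over indices -/
theorem sum_primes_range (g : ℕ → ℝ) (y : ℕ) :
    ∑ p ∈ (Finset.range y).filter Nat.Prime, g p =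
      ∑ j ∈ Finset.range (Nat.count Nat.Prime y), g (pr j) := by
  induction y with
  | zero => simp
  | succ y ih =>
    rw [Finset.range_add_one, Finset.filter_insert, Nat.count_succ]
    split_ifs with h
    · rw [Finset.sum_insert (by simp), Finset.sum_range_succ, ih, pr_count h, add_comm]
    · rw [ih, add_zero]

/-- the set of the primes with sign `-1` -/
def SS (ω : ℕ → Bool) : Set ℕ := {p | ω (Nat.count Nat.Prime p) = false}

theorem sg_SS (ω : ℕ → Bool) (p : ℕ) :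
    Pool.Agent.Q120.FZ.sg (SS ω) p = - sg ω (Nat.count Nat.Prime p) := by
  unfold Pool.Agent.Q120.FZ.sg sg SS
  rcases h : ω (Nat.count Nat.Prime p) with _ | _ <;> simp [h]

theorem block_bound (ω : ℕ → Bool) (β : ℝ)
    (h : ∀ ε : ℝ, 0 < ε → ∃ C : ℝ, ∀ n : ℕ,
      |∑ k ∈ Finset.range n, (sg ω k + (pr k : ℝ) ^ (β - 1))| ≤ C * ((n : ℝ) + 1) ^ (1 / 2 + ε)) :
    ∀ ε : ℝ, 0 < ε → ∃ C : ℝ, ∀ k x : ℕ,
      |∑ p ∈ (Pool.Agent.Q120.FZ.pb k).filter (fun p => p ≤ x),
        (Pool.Agent.Q120.FZ.sg (SS ω) p - Pool.Agent.Q120.FZ.dd β p)| ≤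
          C * (2 : ℝ) ^ ((1 / 2 + ε) * k) := by
  intro ε hε
  obtain ⟨C, hC⟩ := h ε hε
  have hC0 : 0 ≤ C := by
    have h1 := hC 0
    simpa using h1
  refine ⟨2 * (C * 4 ^ (1 / 2 + ε)), fun k x => ?_⟩
  have hpos : 0 ≤ 2 * (C * 4 ^ (1 / 2 + ε)) * (2 : ℝ) ^ ((1 / 2 + ε) * k) := by positivity
  rcases Nat.lt_or_ge x (2 ^ k) with hx | hx
  · have h1 : (Pool.Agent.Q120.FZ.pb k).filter (fun p => p ≤ x) = ∅ := by
      rw [Finset.filter_eq_empty_iff]
      intro p hp
      unfold Pool.Agent.Q120.FZ.pb Pool.Agent.Q120.ET.block at hp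
      rw [Finset.mem_filter, Finset.mem_Ico] at hp
      omega
    rw [h1, Finset.sum_empty, abs_zero]
    exact hpos
  · set y : ℕ := min (x + 1) (2 ^ (k + 1)) with hy
    have h2k : 2 ^ k ≤ 2 ^ (k + 1) := Nat.pow_le_pow_right (by norm_num) (by omega)
    have hyk : 2 ^ k ≤ y := by
      rw [hy, le_min_iff]
      exact ⟨by omega, h2k⟩
    have h1 : (Pool.Agent.Q120.FZ.pb k).filter (fun p => p ≤ x) =
        (Finset.range y).filter Nat.Prime \ (Finset.range (2 ^ k)).filter Nat.Prime := by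
      ext p
      unfold Pool.Agent.Q120.FZ.pb Pool.Agent.Q120.ET.block
      rw [Finset.mem_filter, Finset.mem_filter, Finset.mem_Ico, Finset.mem_sdiff,
        Finset.mem_filter, Finset.mem_filter, Finset.mem_range, Finset.mem_range, hy, lt_min_iff]
      constructor
      · rintro ⟨⟨⟨h3, h4⟩, h5⟩, h6⟩
        exact ⟨⟨⟨by omega, h4⟩, h5⟩, fun h7 => by omega⟩
      · rintro ⟨⟨⟨h3, h4⟩, h5⟩, h6⟩
        refine ⟨⟨⟨?_, h4⟩, h5⟩, by omega⟩
        by_contra h7
        exact h6 ⟨by omega, h5⟩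
    have hsub : (Finset.range (2 ^ k)).filter Nat.Prime ⊆ (Finset.range y).filter Nat.Prime := by
      intro p hp
      rw [Finset.mem_filter, Finset.mem_range] at hp ⊢
      exact ⟨by omega, hp.2⟩
    have h2 : ∀ z : ℕ, ∑ p ∈ (Finset.range z).filter Nat.Prime,
        (Pool.Agent.Q120.FZ.sg (SS ω) p - Pool.Agent.Q120.FZ.dd β p) =
          -∑ j ∈ Finset.range (Nat.count Nat.Prime z), (sg ω j + (pr j : ℝ) ^ (β - 1)) := by
      intro z
      rw [sum_primes_range, ← Finset.sum_neg_distrib]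
      refine Finset.sum_congr rfl fun j _ => ?_
      rw [sg_SS, count_pr]
      unfold Pool.Agent.Q120.FZ.dd
      rw [if_pos (pr_prime j)]
      ring
    have h3 : ∀ z : ℕ, z ≤ 2 ^ (k + 1) → |∑ p ∈ (Finset.range z).filter Nat.Prime,
        (Pool.Agent.Q120.FZ.sg (SS ω) p - Pool.Agent.Q120.FZ.dd β p)| ≤
          C * 4 ^ (1 / 2 + ε) * (2 : ℝ) ^ ((1 / 2 + ε) * k) := by
      intro z hz
      rw [h2, abs_neg]
      refine (hC _).trans ?_
      rw [mul_assoc]
      refine mul_le_mul_of_nonneg_left ?_ hC0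
      have h4 : ((Nat.count Nat.Prime z : ℕ) : ℝ) + 1 ≤ 4 * 2 ^ k := by
        have h5 : Nat.count Nat.Prime z ≤ z := Nat.count_le _
        have h6 : Nat.count Nat.Prime z + 1 ≤ 4 * 2 ^ k := by
          have h7 : 2 ^ (k + 1) = 2 * 2 ^ k := by rw [pow_succ]; ring
          have h8 : 1 ≤ 2 ^ k := Nat.one_le_two_pow
          omega
        exact_mod_cast h6
      calc (((Nat.count Nat.Prime z : ℕ) : ℝ) + 1) ^ (1 / 2 + ε)
          ≤ (4 * 2 ^ k) ^ (1 / 2 + ε) :=
            Real.rpow_le_rpow (by positivity) h4 (by positivity)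
        _ = 4 ^ (1 / 2 + ε) * (2 : ℝ) ^ ((1 / 2 + ε) * k) := by
            rw [Real.mul_rpow (by norm_num) (by positivity), mul_comm (1 / 2 + ε) (k : ℝ),
              Real.rpow_mul (by norm_num), Real.rpow_natCast]
    have h4 : ∑ p ∈ (Pool.Agent.Q120.FZ.pb k).filter (fun p => p ≤ x),
        (Pool.Agent.Q120.FZ.sg (SS ω) p - Pool.Agent.Q120.FZ.dd β p) =
        ∑ p ∈ (Finset.range y).filter Nat.Prime,
          (Pool.Agent.Q120.FZ.sg (SS ω) p - Pool.Agent.Q120.FZ.dd β p) -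
        ∑ p ∈ (Finset.range (2 ^ k)).filter Nat.Prime,
          (Pool.Agent.Q120.FZ.sg (SS ω) p - Pool.Agent.Q120.FZ.dd β p) := by
      rw [h1, ← Finset.sum_sdiff hsub]
      ring
    rw [h4]
    refine (abs_sub _ _).trans ?_
    have h5 := h3 y (by rw [hy]; exact min_le_right _ _)
    have h6 := h3 (2 ^ k) h2k
    linarith

/-- the coefficients -/
noncomputable def muf (ω : ℕ → Bool) (n : ℕ) : ℝ :=
  ((ArithmeticFunction.moebius n : ℤ) : ℝ) * cm ω n

theorem muf_zero (ω : ℕ → Bool) : muf ω 0 = 0 := by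
  unfold muf
  simp

theorem abs_muf (ω : ℕ → Bool) (n : ℕ) : |muf ω n| ≤ 1 := by
  unfold muf
  rw [abs_mul, abs_cm, mul_one]
  exact_mod_cast ArithmeticFunction.abs_moebius_le_one

theorem muf_mul (ω : ℕ → Bool) {m n : ℕ} (h : Nat.Coprime m n) :
    muf ω (m * n) = muf ω m * muf ω n := by
  rcases eq_or_ne m 0 with rfl | hm
  · rw [zero_mul, muf_zero, zero_mul]
  rcases eq_or_ne n 0 with rfl | hn
  · rw [mul_zero, muf_zero, mul_zero]
  unfold muf
  rw [cm_mul ω hm hn, ArithmeticFunction.isMultiplicative_moebius.map_mul_of_coprime h]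
  push_cast
  ring

/-- the Dirichlet series of `lam` is `ζ(2s)` times that of `μ f` -/
theorem lam_eq (ω : ℕ → Bool) (s : ℂ) (hs : 1 < s.re) :
    riemannZeta (2 * s) * LSeries (fun n => (muf ω n : ℂ)) s =
      LSeries (fun n => (Pool.Agent.Q120.FZ.lam (SS ω) n : ℂ)) s := by
  -- the three Euler products
  have hsum0 : Summable fun n : ℕ => (n : ℝ) ^ (-s.re) := Real.summable_nat_rpow.2 (by linarith)
  have hnorm : ∀ (c : ℕ → ℝ), c 0 = 0 → (∀ n, |c n| ≤ 1) →
      Summable fun n : ℕ => ‖(c n : ℂ) * (n : ℂ) ^ (-s)‖ := by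
    intro c hc0 hc
    refine Summable.of_nonneg_of_le (fun n => norm_nonneg _) (fun n => ?_) hsum0
    rw [norm_mul, Complex.norm_real, Real.norm_eq_abs]
    rcases Nat.eq_zero_or_pos n with h | h
    · subst h
      rw [hc0, abs_zero, zero_mul]
      exact Real.rpow_nonneg (Nat.cast_nonneg _) _
    · rw [Complex.norm_natCast_cpow_of_pos h, Complex.neg_re]
      exact mul_le_of_le_one_left (Real.rpow_nonneg (Nat.cast_nonneg _) _) (hc n)
  have hL : ∀ (c : ℕ → ℝ), c 0 = 0 → LSeries (fun n => (c n : ℂ)) s =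
      ∑' n : ℕ, (c n : ℂ) * (n : ℂ) ^ (-s) := by
    intro c hc0
    unfold LSeries
    refine tsum_congr fun n => ?_
    rcases Nat.eq_zero_or_pos n with h | h
    · subst h
      simp [hc0]
    · rw [LSeries.term_of_ne_zero (by omega), Complex.cpow_neg]
      rfl
  have hlam0 : Pool.Agent.Q120.FZ.lam (SS ω) 0 = 0 := by simp [Pool.Agent.Q120.FZ.lam]
  -- first product
  have h1 : HasProd (fun p : Nat.Primes => ∑' e : ℕ, ((muf ω ((p : ℕ) ^ e) : ℂ) *
      (((p : ℕ) ^ e : ℕ) : ℂ) ^ (-s))) (∑' n : ℕ, (muf ω n : ℂ) * (n : ℂ) ^ (-s)) := by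
    refine EulerProduct.eulerProduct_hasProd (f := fun n : ℕ => (muf ω n : ℂ) * (n : ℂ) ^ (-s))
      ?_ ?_ (hnorm _ (muf_zero ω) (abs_muf ω)) ?_
    · simp [muf, cm_one]
    · intro m n hmn
      rw [muf_mul ω hmn, Nat.cast_mul, Complex.natCast_mul_natCast_cpow]
      push_cast
      ring
    · simp [muf_zero]
  have h1' : ∀ p : Nat.Primes, ∑' e : ℕ, ((muf ω ((p : ℕ) ^ e) : ℂ) *
      (((p : ℕ) ^ e : ℕ) : ℂ) ^ (-s)) =
        1 + (Pool.Agent.Q120.FZ.lam (SS ω) p : ℂ) * ((p : ℕ) : ℂ) ^ (-s) := by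
    intro p
    rw [tsum_eq_sum (s := Finset.range 2)]
    · rw [Finset.sum_range_succ, Finset.sum_range_one, pow_zero, pow_one]
      have e1 : muf ω 1 = 1 := by simp [muf, cm_one]
      have e2 : muf ω p = Pool.Agent.Q120.FZ.lam (SS ω) p := by
        unfold muf
        rw [Pool.Agent.Q208.FZ.lam_prime _ p.2, sg_SS, cm_prime ω p.2,
          ArithmeticFunction.moebius_apply_prime p.2]
        push_cast
        ring
      rw [e1, e2]
      simp
    · intro e he
      have he2 : 2 ≤ e := by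
        rw [Finset.mem_range] at he
        omega
      have : muf ω ((p : ℕ) ^ e) = 0 := by
        unfold muf
        rw [ArithmeticFunction.moebius_apply_prime_pow p.2 (by omega), if_neg (by omega)]
        simp
      rw [this]
      simp
  simp only [h1'] at h1
  -- second product
  have h2 := riemannZeta_eulerProduct_hasProd (s := 2 * s) (by
    rw [Complex.mul_re]
    simp
    linarith)
  -- third product
  have h3 : HasProd (fun p : Nat.Primes => (1 - Pool.Agent.Q208.FZ.fh (SS ω) s p)⁻¹)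
      (∑' n : ℕ, Pool.Agent.Q208.FZ.fh (SS ω) s n) :=
    EulerProduct.eulerProduct_completely_multiplicative_hasProd
      (f := Pool.Agent.Q208.FZ.fh (SS ω) s)
      (hnorm _ hlam0 (Pool.Agent.Q208.FZ.lam_abs (SS ω)))
  have h4 : ∀ p : Nat.Primes, (1 - ((p : ℕ) : ℂ) ^ (-(2 * s)))⁻¹ *
      (1 + (Pool.Agent.Q120.FZ.lam (SS ω) p : ℂ) * ((p : ℕ) : ℂ) ^ (-s)) =
        (1 - Pool.Agent.Q208.FZ.fh (SS ω) s p)⁻¹ := by
    intro p
    show _ = (1 - (Pool.Agent.Q120.FZ.lam (SS ω) p : ℂ) * ((p : ℕ) : ℂ) ^ (-s))⁻¹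
    have hp0 : ((p : ℕ) : ℂ) ≠ 0 := by exact_mod_cast p.2.ne_zero
    have hsq : (Pool.Agent.Q120.FZ.lam (SS ω) p : ℂ) ^ 2 = 1 := by
      rw [Pool.Agent.Q208.FZ.lam_prime _ p.2]
      unfold Pool.Agent.Q120.FZ.sg
      split_ifs <;> simp
    set x : ℂ := (Pool.Agent.Q120.FZ.lam (SS ω) p : ℂ) * ((p : ℕ) : ℂ) ^ (-s) with hx
    have hx2 : ((p : ℕ) : ℂ) ^ (-(2 * s)) = x ^ 2 := by
      rw [hx, mul_pow, hsq, one_mul, ← Complex.cpow_nat_mul]
      congr 1
      push_cast
      ring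
    have hxn : ‖x‖ < 1 := by
      rw [hx, norm_mul]
      have e1 : ‖(Pool.Agent.Q120.FZ.lam (SS ω) p : ℂ)‖ ≤ 1 := by
        rw [Complex.norm_real, Real.norm_eq_abs]
        exact Pool.Agent.Q208.FZ.lam_abs _ _
      have e2 : ‖((p : ℕ) : ℂ) ^ (-s)‖ < 1 := by
        rw [Complex.norm_natCast_cpow_of_pos p.2.pos, Complex.neg_re]
        refine Real.rpow_lt_one_of_one_lt_of_neg ?_ (by linarith)
        exact_mod_cast p.2.one_lt
      calc ‖(Pool.Agent.Q120.FZ.lam (SS ω) p : ℂ)‖ * ‖((p : ℕ) : ℂ) ^ (-s)‖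
          ≤ 1 * ‖((p : ℕ) : ℂ) ^ (-s)‖ := mul_le_mul_of_nonneg_right e1 (norm_nonneg _)
        _ < 1 := by rw [one_mul]; exact e2
    have hp1 : 1 + x ≠ 0 := by
      intro h
      have : x = -1 := by linear_combination h
      rw [this, norm_neg, norm_one] at hxn
      exact lt_irrefl _ hxn
    have hm1 : 1 - x ≠ 0 := by
      intro h
      have : x = 1 := by linear_combination -h
      rw [this, norm_one] at hxn
      exact lt_irrefl _ hxn
    rw [hx2, show (1 : ℂ) - x ^ 2 = (1 - x) * (1 + x) by ring, mul_inv, mul_assoc,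
      inv_mul_cancel₀ hp1, mul_one]
  have h5 := h2.mul h1
  simp only [h4] at h5
  have h6 := h5.unique h3
  rw [hL _ (muf_zero ω), hL _ hlam0, h6]
  rfl

theorem t_LOW : S_LOW := by
  intro ω β hβ hβ1 hdev a ha
  rintro ⟨C, hC⟩
  have hC0 : 0 ≤ C := by
    have h1 := hC 1 le_rfl
    have h2 := (abs_nonneg _).trans h1
    simpa using h2
  set θ : ℝ := (max a (1 / 2) + β) / 2 with hθ
  have hm : max a (1 / 2) < β := max_lt ha hβ
  have hθβ : θ < β := by rw [hθ]; linarith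
  have hθ12 : 1 / 2 < θ := by
    rw [hθ]
    have := le_max_right a (1 / 2)
    linarith
  have hθa : a < θ := by
    rw [hθ]
    have := le_max_left a (1 / 2)
    linarith
  obtain ⟨R, hR, hR'⟩ := Pool.Agent.Q247.RZ.t_AN (fun n => (muf ω n : ℂ)) θ (by linarith)
    (by linarith) (fun n => by
      rw [Complex.norm_real, Real.norm_eq_abs]
      exact abs_muf ω n) (fun ε hε => by
      refine ⟨C, fun x hx => ?_⟩
      rw [← Complex.ofReal_sum, Complex.norm_real, Real.norm_eq_abs]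
      refine (hC x hx).trans ?_
      refine mul_le_mul_of_nonneg_left ?_ hC0
      exact Real.rpow_le_rpow_of_exponent_le (by exact_mod_cast hx) (by linarith))
  refine Pool.Agent.Q146.FZ.t_POLE Pool.Agent.Q208.FZ.t_LGP Pool.Agent.Q208.FZ.t_EUL
    Pool.Agent.Q247.RZ.t_AN (SS ω) β θ hβ hβ1 hθβ (block_bound ω β hdev)
    ⟨fun s => riemannZeta (2 * s) * R s, ?_, ?_⟩
  · refine DifferentiableOn.mul ?_ hR
    intro s hs
    have hs' : θ < s.re := hs
    refine DifferentiableAt.differentiableWithinAt ?_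
    have h1 : 2 * s ≠ 1 := by
      intro h
      have h2 := congrArg Complex.re h
      rw [Complex.mul_re] at h2
      simp at h2
      linarith
    exact (differentiableAt_riemannZeta h1).comp s (by fun_prop : DifferentiableAt ℂ (fun z : ℂ => 2 * z) s)
  · intro s hs
    show riemannZeta (2 * s) * R s = _
    rw [hR' s hs]
    exact lam_eq ω s hs

end Pool.Agent.Q13.EP
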