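import Pool.Agent.Q255.EP.Stm
import Pool.Agent.Q13.EP.REC

set_option autoImplicit false

namespace Pool.Agent.Q13.EP

open Filter Topology MeasureTheory Pool.Agent.Q255.IC Pool.Agent.Q255.IR Pool.Agent.Q255.EP
open scoped ENNReal

/-- the polynomial with coefficients `b_k / Q` -/
noncomputable def phs (d Q : ℕ) (b : Fin (d + 1) → Fin Q) (x : ℝ) : ℝ :=
  ∑ k : Fin (d + 1), (((b k : ℕ) : ℝ) / Q) * x ^ (k : ℕ)

/-- the weights -/
noncomputable def wfn (a : ℕ → ℝ) (d Q R : ℕ) (b : Fin (d + 1) → Fin Q) (t : Bool) (m : ℕ) : ℝ :=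
  if m ≤ R then a m * (if t then Real.cos (2 * Real.pi * phs d Q b m)
    else Real.sin (2 * Real.pi * phs d Q b m)) else 0

theorem ee_eq (x : ℝ) : ee x = (Real.cos (2 * Real.pi * x) : ℂ) +
    (Real.sin (2 * Real.pi * x) : ℂ) * Complex.I := by
  unfold ee
  rw [Complex.exp_mul_I, Complex.ofReal_cos, Complex.ofReal_sin]

theorem ee_add (x y : ℝ) : ee (x + y) = ee x * ee y := by
  unfold ee
  rw [← Complex.exp_add]
  congr 1
  push_cast
  ring

theorem ee_int (n : ℤ) : ee (n : ℝ) = 1 := by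
  unfold ee
  rw [show ((2 * Real.pi * (n : ℝ) : ℝ) : ℂ) * Complex.I = n * (2 * Real.pi * Complex.I) by
    push_cast; ring]
  exact Complex.exp_int_mul_two_pi_mul_I n

theorem norm_ee (x : ℝ) : ‖ee x‖ = 1 := by
  unfold ee
  exact Complex.norm_exp_ofReal_mul_I _

theorem norm_ee_sub (x y : ℝ) : ‖ee (x + y) - ee x‖ ≤ 2 * Real.pi * |y| := by
  rw [ee_add, show ee x * ee y - ee x = ee x * (ee y - 1) by ring, norm_mul, norm_ee, one_mul]
  have h : ee y = Complex.exp (Complex.I * ((2 * Real.pi * y : ℝ) : ℂ)) := by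
    unfold ee
    rw [mul_comm]
  rw [h]
  refine (Real.norm_exp_I_mul_ofReal_sub_one_le).trans ?_
  rw [Real.norm_eq_abs, abs_mul, abs_of_pos (by positivity : (0 : ℝ) < 2 * Real.pi)]

theorem abs_wfn (a : ℕ → ℝ) (ha : ∀ n, |a n| ≤ 1) (d Q R : ℕ) (b : Fin (d + 1) → Fin Q) (t : Bool)
    (m : ℕ) : |wfn a d Q R b t m| ≤ 1 := by
  unfold wfn
  split_ifs
  · rw [abs_mul]
    exact mul_le_one₀ (ha m) (abs_nonneg _) (Real.abs_cos_le_one _)
  · rw [abs_mul]
    exact mul_le_one₀ (ha m) (abs_nonneg _) (Real.abs_sin_le_one _)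
  · simp

theorem poly (hE : S_ENG) : S_POLY := by
  classical
  intro ν _ δ hδ hν a ha
  -- the family of weights
  let QQ : ℕ → ℕ → ℕ := fun d J => 2 ^ (J * (d + 1))
  let W : ℕ → ℕ → Finset (ℕ → ℝ) := fun d J =>
    Finset.image (fun q : Fin (2 ^ J + 1) × (Fin (d + 1) → Fin (QQ d J)) × Bool =>
      wfn a d (QQ d J) q.1 q.2.1 q.2.2) Finset.univ
  have hmain : ∀ d : ℕ, ∀ᵐ ω ∂ν, ∀ ε : ℝ, 0 < ε → ∃ C : ℝ, ∀ J, ∀ w ∈ W d J, ∀ M : ℕ,
      (∀ m, M < m → w m = 0) →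
        |∑ m ∈ Finset.Icc 1 M, w m * cm ω m| ≤ C * (2 : ℝ) ^ (ε * J) * (M : ℝ) ^ ((1 + δ) / 2) := by
    intro d
    refine hE ν δ hδ hν (W d) ((2 + ((d : ℝ) + 1) ^ 2) * Real.log 2) ?_ ?_ ?_
    · intro J w hw m
      obtain ⟨q, _, rfl⟩ := Finset.mem_image.1 hw
      exact abs_wfn a ha _ _ _ _ _ _
    · intro J w hw m hm
      obtain ⟨q, _, rfl⟩ := Finset.mem_image.1 hw
      have h1 := q.1.2
      unfold wfn
      rw [if_neg (by omega)]
    · intro J
      have h1 : (W d J).card ≤ (2 ^ J + 1) * ((QQ d J) ^ (d + 1) * 2) := by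
        refine Finset.card_image_le.trans ?_
        rw [Finset.card_univ, Fintype.card_prod, Fintype.card_prod, Fintype.card_fun]
        simp
      have h2 : (2 ^ J + 1) * ((QQ d J) ^ (d + 1) * 2) ≤ 2 ^ ((J + 1) * (2 + (d + 1) ^ 2)) := by
        have h3 : 2 ^ J + 1 ≤ 2 ^ (J + 1) := by
          rw [pow_succ]
          have := Nat.one_le_two_pow (n := J)
          omega
        have h4 : (QQ d J) ^ (d + 1) * 2 = 2 ^ (J * (d + 1) * (d + 1) + 1) := by
          show (2 ^ (J * (d + 1))) ^ (d + 1) * 2 = _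
          rw [← pow_mul, pow_succ]
        rw [h4]
        calc (2 ^ J + 1) * 2 ^ (J * (d + 1) * (d + 1) + 1)
            ≤ 2 ^ (J + 1) * 2 ^ (J * (d + 1) * (d + 1) + 1) := Nat.mul_le_mul_right _ h3
          _ = 2 ^ (J + 1 + (J * (d + 1) * (d + 1) + 1)) := by rw [← pow_add]
          _ ≤ 2 ^ ((J + 1) * (2 + (d + 1) ^ 2)) := by
            refine Nat.pow_le_pow_right (by norm_num) ?_
            nlinarith [Nat.zero_le J, Nat.zero_le d]
      have h5 : ((W d J).card : ℝ) ≤ (2 : ℝ) ^ ((J + 1) * (2 + (d + 1) ^ 2)) := by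
        exact_mod_cast h1.trans h2
      refine h5.trans (le_of_eq ?_)
      rw [← Real.rpow_natCast, Real.rpow_def_of_pos (by norm_num)]
      congr 1
      push_cast
      ring
  rw [← ae_all_iff] at hmain
  filter_upwards [hmain] with ω hω d ε hε
  obtain ⟨C, hC⟩ := hω d ε hε
  refine ⟨2 * Real.pi * (d + 1) + 2 * (|C| * 2 ^ ε), fun R F hR hF => ?_⟩
  have hR1 : (1 : ℝ) ≤ R := by exact_mod_cast hR
  have hR0 : (0 : ℝ) < R := by linarith
  -- the scale
  obtain ⟨J, hJ1, hJ2⟩ : ∃ J : ℕ, R ≤ 2 ^ J ∧ 2 ^ J ≤ 2 * R := by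
    refine ⟨Nat.clog 2 R, Nat.le_pow_clog (by norm_num) R, ?_⟩
    rcases Nat.lt_or_ge 1 R with h | h
    · have h1 := Nat.pow_pred_clog_lt_self (b := 2) (by norm_num) h
      have h2 : 0 < Nat.clog 2 R := Nat.clog_pos (by norm_num) h
      have h3 : 2 ^ Nat.clog 2 R = 2 * 2 ^ (Nat.clog 2 R).pred := by
        rw [← pow_succ']
        congr 1
        rw [Nat.pred_eq_sub_one]
        omega
      omega
    · have : R = 1 := by omega
      subst this
      simp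
  set Q : ℕ := QQ d J with hQdef
  have hQpos : 0 < Q := by
    show 0 < 2 ^ (J * (d + 1))
    positivity
  have hQr : (0 : ℝ) < Q := by exact_mod_cast hQpos
  -- the coefficients
  have hfl : ∀ k : ℕ, (⌊(Q : ℝ) * Int.fract (F.coeff k)⌋₊) < Q := by
    intro k
    rw [Nat.floor_lt (by have := Int.fract_nonneg (F.coeff k); positivity)]
    have := Int.fract_lt_one (F.coeff k)
    nlinarith
  let b : Fin (d + 1) → Fin Q := fun k => ⟨⌊(Q : ℝ) * Int.fract (F.coeff k)⌋₊, hfl k⟩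
  have hbk : ∀ k : Fin (d + 1), |Int.fract (F.coeff k) - ((b k : ℕ) : ℝ) / Q| ≤ 1 / Q := by
    intro k
    have h0 : 0 ≤ (Q : ℝ) * Int.fract (F.coeff k) := by
      have := Int.fract_nonneg (F.coeff k)
      positivity
    have h1 : (((b k : ℕ) : ℝ)) ≤ (Q : ℝ) * Int.fract (F.coeff k) := Nat.floor_le h0
    have h2 : (Q : ℝ) * Int.fract (F.coeff k) < ((b k : ℕ) : ℝ) + 1 := Nat.lt_floor_add_one _
    rw [abs_le]
    constructor
    · have : 0 ≤ Int.fract (F.coeff k) - ((b k : ℕ) : ℝ) / Q := by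
        rw [sub_nonneg, div_le_iff₀ hQr]
        linarith
      have h3 : 0 ≤ 1 / (Q : ℝ) := by positivity
      linarith
    · rw [sub_le_iff_le_add, ← add_div, le_div_iff₀ hQr]
      linarith
  have hR2J : (R : ℝ) ≤ 2 ^ J := by exact_mod_cast hJ1
  -- the phases are close
  have hphase : ∀ n ∈ Finset.Icc 1 R,
      ‖ee (F.eval (n : ℝ)) - ee (phs d Q b n)‖ ≤ 2 * Real.pi * ((d + 1) / 2 ^ J) := by
    intro n hn
    rw [Finset.mem_Icc] at hn
    have hn1 : (1 : ℝ) ≤ n := by exact_mod_cast hn.1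
    have hnR : (n : ℝ) ≤ R := by exact_mod_cast hn.2
    have h1 : F.eval (n : ℝ) = ∑ k : Fin (d + 1), F.coeff k * (n : ℝ) ^ (k : ℕ) := by
      rw [Polynomial.eval_eq_sum_range' (Nat.lt_succ_of_le hF), Finset.sum_range]
    have h2 : F.eval (n : ℝ) = (phs d Q b n + ∑ k : Fin (d + 1),
        (Int.fract (F.coeff k) - ((b k : ℕ) : ℝ) / Q) * (n : ℝ) ^ (k : ℕ)) +
        ((∑ k : Fin (d + 1), ⌊F.coeff k⌋ * (n : ℤ) ^ (k : ℕ) : ℤ) : ℝ) := by
      rw [h1]
      unfold phs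
      push_cast
      rw [← Finset.sum_add_distrib, ← Finset.sum_add_distrib]
      refine Finset.sum_congr rfl fun k _ => ?_
      have := Int.floor_add_fract (F.coeff k)
      nth_rewrite 1 [← this]
      ring
    rw [h2, ee_add, ee_int, mul_one]
    refine (norm_ee_sub _ _).trans ?_
    refine mul_le_mul_of_nonneg_left ?_ (by positivity)
    refine (Finset.abs_sum_le_sum_abs _ _).trans ?_
    have h3 : ∀ k ∈ (Finset.univ : Finset (Fin (d + 1))),
        |(Int.fract (F.coeff k) - ((b k : ℕ) : ℝ) / Q) * (n : ℝ) ^ (k : ℕ)| ≤ 1 / 2 ^ J := by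
      intro k _
      rw [abs_mul, abs_of_nonneg (by positivity : (0 : ℝ) ≤ (n : ℝ) ^ (k : ℕ))]
      have h4 : (n : ℝ) ^ (k : ℕ) ≤ ((2 : ℝ) ^ J) ^ d := by
        calc (n : ℝ) ^ (k : ℕ) ≤ ((2 : ℝ) ^ J) ^ (k : ℕ) :=
              pow_le_pow_left₀ (by linarith) (hnR.trans hR2J) _
          _ ≤ ((2 : ℝ) ^ J) ^ d := pow_le_pow_right₀ (one_le_pow₀ (by norm_num)) (by
              have := k.2
              omega)
      have h5 : (Q : ℝ) = (2 ^ J) ^ d * 2 ^ J := by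
        have : Q = (2 ^ J) ^ d * 2 ^ J := by
          show 2 ^ (J * (d + 1)) = _
          rw [← pow_succ, ← pow_mul]
        rw [this]
        push_cast
        ring
      calc |Int.fract (F.coeff k) - ((b k : ℕ) : ℝ) / Q| * (n : ℝ) ^ (k : ℕ)
          ≤ 1 / Q * ((2 : ℝ) ^ J) ^ d := by
            refine mul_le_mul (hbk k) h4 (by positivity) (by positivity)
        _ = 1 / 2 ^ J := by
            rw [h5]
            field_simp
    refine (Finset.sum_le_sum h3).trans (le_of_eq ?_)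
    rw [Finset.sum_const, Finset.card_univ, Fintype.card_fin, nsmul_eq_mul]
    push_cast
    ring
  -- the two sums
  have hsplit : ∑ n ∈ Finset.Icc 1 R, ((a n * cm ω n : ℝ) : ℂ) * ee (phs d Q b n) =
      ((∑ n ∈ Finset.Icc 1 R, wfn a d Q R b true n * cm ω n : ℝ) : ℂ) +
        ((∑ n ∈ Finset.Icc 1 R, wfn a d Q R b false n * cm ω n : ℝ) : ℂ) * Complex.I := by
    push_cast
    rw [Finset.sum_mul, ← Finset.sum_add_distrib]
    refine Finset.sum_congr rfl fun n hn => ?_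
    rw [Finset.mem_Icc] at hn
    rw [ee_eq]
    unfold wfn
    rw [if_pos hn.2, if_pos hn.2]
    simp only [if_true, Bool.false_eq_true, if_false]
    push_cast
    ring
  have hbound : ∀ t : Bool, |∑ n ∈ Finset.Icc 1 R, wfn a d Q R b t n * cm ω n| ≤
      |C| * 2 ^ ε * (R : ℝ) ^ ((1 + δ) / 2 + ε) := by
    intro t
    have hmem : wfn a d Q R b t ∈ W d J := by
      refine Finset.mem_image.2 ⟨(⟨R, by omega⟩, b, t), Finset.mem_univ _, rfl⟩
    have h1 := hC J _ hmem R (fun m hm => by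
      unfold wfn
      rw [if_neg (by omega)])
    refine h1.trans ?_
    have h2 : (2 : ℝ) ^ (ε * J) ≤ 2 ^ ε * (R : ℝ) ^ ε := by
      rw [← Real.mul_rpow (by norm_num) hR0.le, mul_comm ε, Real.rpow_mul (by norm_num),
        Real.rpow_natCast]
      refine Real.rpow_le_rpow (by positivity) ?_ hε.le
      exact_mod_cast hJ2
    calc C * (2 : ℝ) ^ (ε * J) * (R : ℝ) ^ ((1 + δ) / 2)
        ≤ |C| * (2 ^ ε * (R : ℝ) ^ ε) * (R : ℝ) ^ ((1 + δ) / 2) := by
          refine mul_le_mul_of_nonneg_right ?_ (by positivity)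
          refine (mul_le_mul_of_nonneg_right (le_abs_self C) (by positivity)).trans ?_
          exact mul_le_mul_of_nonneg_left h2 (abs_nonneg C)
      _ = |C| * 2 ^ ε * (R : ℝ) ^ ((1 + δ) / 2 + ε) := by
          rw [Real.rpow_add hR0]
          ring
  have hnear : ‖∑ n ∈ Finset.Icc 1 R, ((a n * cm ω n : ℝ) : ℂ) * ee (F.eval (n : ℝ)) -
      ∑ n ∈ Finset.Icc 1 R, ((a n * cm ω n : ℝ) : ℂ) * ee (phs d Q b n)‖ ≤
        2 * Real.pi * (d + 1) := by
    rw [← Finset.sum_sub_distrib]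
    have h1 : ∀ n ∈ Finset.Icc 1 R, ‖((a n * cm ω n : ℝ) : ℂ) * ee (F.eval (n : ℝ)) -
        ((a n * cm ω n : ℝ) : ℂ) * ee (phs d Q b n)‖ ≤ 2 * Real.pi * ((d + 1) / 2 ^ J) := by
      intro n hn
      rw [← mul_sub, norm_mul]
      have h2 : ‖((a n * cm ω n : ℝ) : ℂ)‖ ≤ 1 := by
        rw [Complex.norm_real, Real.norm_eq_abs, abs_mul, abs_cm, mul_one]
        exact ha n
      calc ‖((a n * cm ω n : ℝ) : ℂ)‖ * ‖ee (F.eval (n : ℝ)) - ee (phs d Q b n)‖
          ≤ 1 * ‖ee (F.eval (n : ℝ)) - ee (phs d Q b n)‖ :=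
            mul_le_mul_of_nonneg_right h2 (norm_nonneg _)
        _ ≤ _ := by
            rw [one_mul]
            exact hphase n hn
    refine (norm_sum_le_of_le _ h1).trans ?_
    rw [Finset.sum_const, Nat.card_Icc, nsmul_eq_mul, Nat.add_sub_cancel]
    have h3 : (R : ℝ) * (2 * Real.pi * ((d + 1) / 2 ^ J)) =
        2 * Real.pi * (d + 1) * (R / 2 ^ J) := by ring
    rw [h3]
    refine mul_le_of_le_one_right (by positivity) ?_
    rw [div_le_one (by positivity)]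
    exact hR2J
  have hRp : (1 : ℝ) ≤ (R : ℝ) ^ ((1 + δ) / 2 + ε) :=
    Real.one_le_rpow hR1 (by positivity)
  have hfin : ‖∑ n ∈ Finset.Icc 1 R, ((a n * cm ω n : ℝ) : ℂ) * ee (phs d Q b n)‖ ≤
      2 * (|C| * 2 ^ ε * (R : ℝ) ^ ((1 + δ) / 2 + ε)) := by
    rw [hsplit]
    refine (norm_add_le _ _).trans ?_
    rw [norm_mul, Complex.norm_I, mul_one, Complex.norm_real, Complex.norm_real,
      Real.norm_eq_abs, Real.norm_eq_abs]
    linarith [hbound true, hbound false]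
  calc ‖∑ n ∈ Finset.Icc 1 R, ((a n * cm ω n : ℝ) : ℂ) * ee (F.eval (n : ℝ))‖
      ≤ ‖∑ n ∈ Finset.Icc 1 R, ((a n * cm ω n : ℝ) : ℂ) * ee (F.eval (n : ℝ)) -
          ∑ n ∈ Finset.Icc 1 R, ((a n * cm ω n : ℝ) : ℂ) * ee (phs d Q b n)‖ +
        ‖∑ n ∈ Finset.Icc 1 R, ((a n * cm ω n : ℝ) : ℂ) * ee (phs d Q b n)‖ :=
          norm_le_norm_sub_add _ _
    _ ≤ 2 * Real.pi * (d + 1) + 2 * (|C| * 2 ^ ε * (R : ℝ) ^ ((1 + δ) / 2 + ε)) :=
          add_le_add hnear hfin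
    _ ≤ 2 * Real.pi * (d + 1) * (R : ℝ) ^ ((1 + δ) / 2 + ε) +
          2 * (|C| * 2 ^ ε * (R : ℝ) ^ ((1 + δ) / 2 + ε)) := by
          have : 2 * Real.pi * ((d : ℝ) + 1) ≤
              2 * Real.pi * (d + 1) * (R : ℝ) ^ ((1 + δ) / 2 + ε) :=
            le_mul_of_one_le_right (by positivity) hRp
          linarith
    _ = (2 * Real.pi * (d + 1) + 2 * (|C| * 2 ^ ε)) * (R : ℝ) ^ ((1 + δ) / 2 + ε) := by ring

end Pool.Agent.Q13.EP
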